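import Pool.Graph.R_pool_sql_team_941085ca.Results.MP_41affd_gt.Separable

/-!
# MP_41affd_gt: under (TAM) ccc countably tight compacta have a countable pi-base

`CCC`, `CountablyTight` and `TAM` are the definitions of the library file `Separable` (the countable
chain condition, countable tightness and the statement (TAM)).
The spaces treated here need not be compact, not even locally compact: it is enough that the open
sets with compact countably tight closure form a pi-base, and the conclusion is stronger than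
separability.
-/

set_option autoImplicit false
open Set Topology Pool.Agent.Results.MP_41affd_gt.Separable

namespace Pool.Agent.Results.MP_41affd_gt.CountablePiBase

universe u

/-- `X` has a countable pi-base: countably many nonempty open sets such that every nonempty open
set contains one of them. -/
def HasCountablePiBase (X : Type u) [TopologicalSpace X] : Prop :=
  ∃ 𝒢 : Set (Set X), 𝒢.Countable ∧ (∀ G ∈ 𝒢, IsOpen G ∧ G.Nonempty) ∧
    ∀ U : Set X, IsOpen U → U.Nonempty → ∃ G ∈ 𝒢, G ⊆ U

/-- Every nonempty open set contains a nonempty open set whose closure is compact and, as a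
subspace, countably tight. -/
def AlmostLocallyTight (X : Type u) [TopologicalSpace X] : Prop :=
  ∀ U : Set X, IsOpen U → U.Nonempty →
    ∃ V : Set X, V ⊆ U ∧ IsOpen V ∧ V.Nonempty ∧ IsCompact (closure V) ∧
      CountablyTight (closure V : Set X)

theorem countablyTight_subtype {X : Type u} [TopologicalSpace X] (h : CountablyTight X)
    (K : Set X) : CountablyTight K := by
  intro A x hx
  have h1 : x.1 ∈ closure (Subtype.val '' A) := by
    rw [closure_subtype] at hx
    exact hx
  obtain ⟨B, hBA, hB, hxB⟩ := h _ _ h1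
  refine ⟨A ∩ Subtype.val ⁻¹' B, inter_subset_left, ?_, ?_⟩
  · exact (hB.preimage Subtype.val_injective).mono inter_subset_right
  · rw [closure_subtype]
    refine closure_mono ?_ hxB
    intro b hb
    obtain ⟨a, ha, rfl⟩ := hBA hb
    exact ⟨a, ⟨ha, hb⟩, rfl⟩

theorem piBase_compact (hT : TAM.{u}) (K : Type u) [TopologicalSpace K] [CompactSpace K]
    [T2Space K] (hc : CCC K) (ht : CountablyTight K) : HasCountablePiBase K := by
  obtain ⟨S, hS, hSd⟩ := (separable_of_TAM hT hc ht).exists_countable_dense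
  choose 𝒢 h1 h2 h3 using fun p : K => countable_pi_base ht p
  refine ⟨⋃ s ∈ S, 𝒢 s, hS.biUnion fun s _ => h1 s, ?_, ?_⟩
  · intro G hG
    obtain ⟨s, hs, hG⟩ := mem_iUnion₂.1 hG
    exact h2 s G hG
  · intro U hU hne
    obtain ⟨s, hsU, hs⟩ := hSd.inter_open_nonempty U hU hne
    obtain ⟨G, hG, hGU⟩ := h3 s U hU hsU
    exact ⟨G, mem_iUnion₂.2 ⟨s, hs, hG⟩, hGU⟩

theorem ccc_closure {X : Type u} [TopologicalSpace X] (hc : CCC X) {V : Set X} (hV : IsOpen V) :
    CCC (closure V : Set X) := by
  intro 𝒰 h1 h2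
  have h3 : ∀ U : 𝒰, ∃ O : Set X, IsOpen O ∧ Subtype.val ⁻¹' O = U.1 := fun U =>
    isOpen_induced_iff.1 (h1 U.1 U.2).1
  choose O hO hOU using h3
  have hne : ∀ U : 𝒰, (O U ∩ V).Nonempty := by
    intro U
    obtain ⟨y, hy⟩ := (h1 U.1 U.2).2
    rw [← hOU U] at hy
    exact mem_closure_iff.1 y.2 (O U) (hO U) hy
  have hdis : ∀ U W : 𝒰, U ≠ W → Disjoint (O U ∩ V) (O W ∩ V) := by
    intro U W hUW
    rw [Set.disjoint_left]
    intro x hx hx'
    have hxV : x ∈ closure V := subset_closure hx.2
    have hxU : (⟨x, hxV⟩ : (closure V : Set X)) ∈ U.1 := by rw [← hOU U]; exact hx.1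
    have hxW : (⟨x, hxV⟩ : (closure V : Set X)) ∈ W.1 := by rw [← hOU W]; exact hx'.1
    exact Set.disjoint_left.1 (h2 U.2 W.2 fun h => hUW (Subtype.ext h)) hxU hxW
  have hinj : Function.Injective fun U : 𝒰 => O U ∩ V := by
    intro U W hUW
    by_contra h
    have h6 := hdis U W h
    simp only at hUW
    rw [hUW] at h6
    obtain ⟨y, hy⟩ := hne W
    exact Set.disjoint_left.1 h6 hy hy
  have h7 := hc (range fun U : 𝒰 => O U ∩ V) (by
    rintro _ ⟨U, rfl⟩
    exact ⟨(hO U).inter hV, hne U⟩) (by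
    rintro _ ⟨U, rfl⟩ _ ⟨W, rfl⟩ h
    exact hdis U W fun h' => h (by rw [h']))
  have : Countable (range fun U : 𝒰 => O U ∩ V) := h7.to_subtype
  exact Set.countable_coe_iff.1 (Set.rangeFactorization_injective.2 hinj).countable

theorem piBase (hT : TAM.{u}) (X : Type u) [TopologicalSpace X] [T2Space X]
    (hX : AlmostLocallyTight X) (hc : CCC X) : HasCountablePiBase X := by
  classical
  -- a maximal disjoint family of open sets with compact countably tight closure
  obtain ⟨𝒱, h𝒱⟩ := zorn_subset {𝒱 : Set (Set X) | (∀ V ∈ 𝒱, IsOpen V ∧ V.Nonempty ∧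
      IsCompact (closure V) ∧ CountablyTight (closure V : Set X)) ∧ 𝒱.PairwiseDisjoint id} (by
    intro C hC hchain
    refine ⟨⋃₀ C, ⟨?_, ?_⟩, fun s hs => subset_sUnion_of_mem hs⟩
    · rintro V ⟨𝒲, h𝒲, hV⟩
      exact (hC h𝒲).1 V hV
    · rw [Set.pairwiseDisjoint_sUnion hchain.directedOn]
      exact fun 𝒲 h𝒲 => (hC h𝒲).2)
  have hm := h𝒱.prop
  have hcount : 𝒱.Countable := hc 𝒱 (fun V hV => ⟨(hm.1 V hV).1, (hm.1 V hV).2.1⟩) hm.2
  have hdense : ∀ U : Set X, IsOpen U → U.Nonempty → ∃ V ∈ 𝒱, (U ∩ V).Nonempty := by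
    intro U hU hne
    by_contra hcon
    push Not at hcon
    obtain ⟨W, hWU, hW, hWne, hWc, hWt⟩ := hX U hU hne
    have hdis : ∀ V ∈ 𝒱, Disjoint W V := by
      intro V hV
      rw [Set.disjoint_iff_inter_eq_empty]
      exact Set.subset_empty_iff.1 (by
        rw [← hcon V hV]
        exact inter_subset_inter_left V hWU)
    have h1 : insert W 𝒱 ∈ {𝒱 : Set (Set X) | (∀ V ∈ 𝒱, IsOpen V ∧ V.Nonempty ∧
      IsCompact (closure V) ∧ CountablyTight (closure V : Set X)) ∧ 𝒱.PairwiseDisjoint id} := by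
      refine ⟨?_, ?_⟩
      · intro V hV
        rcases hV with rfl | hV
        · exact ⟨hW, hWne, hWc, hWt⟩
        · exact hm.1 V hV
      · exact hm.2.insert fun V hV _ => hdis V hV
    have h2 := h𝒱.eq_of_subset h1 (subset_insert W 𝒱)
    have h3 : W ∈ 𝒱 := by
      rw [h2]
      exact mem_insert W 𝒱
    obtain ⟨x, hx⟩ := hWne
    exact Set.disjoint_left.1 (hdis W h3) hx hx
  have hpb : ∀ V : 𝒱, HasCountablePiBase (closure V.1 : Set X) := by
    intro V
    have : CompactSpace (closure V.1 : Set X) :=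
      isCompact_iff_compactSpace.1 (hm.1 V.1 V.2).2.2.1
    exact piBase_compact hT _ (ccc_closure hc (hm.1 V.1 V.2).1) (hm.1 V.1 V.2).2.2.2
  choose 𝒢 h1 h2 h3 using hpb
  have : Countable 𝒱 := hcount.to_subtype
  refine ⟨⋃ V : 𝒱, (fun G : Set (closure V.1 : Set X) => Subtype.val '' G ∩ V.1) '' 𝒢 V,
    countable_iUnion fun V => (h1 V).image _, ?_, ?_⟩
  · intro G₀ hG₀
    obtain ⟨V, G, hG, rfl⟩ := mem_iUnion.1 hG₀
    obtain ⟨hGo, y, hy⟩ := h2 V G hG
    obtain ⟨O, hO, rfl⟩ := isOpen_induced_iff.1 hGo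
    have heq : Subtype.val '' (Subtype.val ⁻¹' O : Set (closure V.1 : Set X)) ∩ V.1 = O ∩ V.1 := by
      ext x
      constructor
      · rintro ⟨⟨z, hz, rfl⟩, hx⟩
        exact ⟨hz, hx⟩
      · rintro ⟨hx, hxV⟩
        exact ⟨⟨⟨x, subset_closure hxV⟩, hx, rfl⟩, hxV⟩
    show IsOpen (Subtype.val '' (Subtype.val ⁻¹' O : Set (closure V.1 : Set X)) ∩ V.1) ∧
      (Subtype.val '' (Subtype.val ⁻¹' O : Set (closure V.1 : Set X)) ∩ V.1).Nonempty
    rw [heq]
    exact ⟨hO.inter (hm.1 V.1 V.2).1, mem_closure_iff.1 y.2 O hO hy⟩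
  · intro U hU hne
    obtain ⟨V, hV, x, hxU, hxV⟩ := hdense U hU hne
    obtain ⟨G, hG, hGU⟩ := h3 ⟨V, hV⟩ (Subtype.val ⁻¹' U) (hU.preimage continuous_subtype_val)
      ⟨⟨x, subset_closure hxV⟩, hxU⟩
    refine ⟨_, mem_iUnion.2 ⟨⟨V, hV⟩, G, hG, rfl⟩, ?_⟩
    rintro _ ⟨⟨z, hz, rfl⟩, _⟩
    exact hGU hz

theorem dense_of_piBase {X : Type u} [TopologicalSpace X] (h : HasCountablePiBase X)
    (D : Set X) (hD : Dense D) : ∃ C ⊆ D, C.Countable ∧ Dense C := by
  obtain ⟨𝒢, h1, h2, h3⟩ := h
  have h4 : ∀ G : 𝒢, ∃ x ∈ D, x ∈ G.1 := by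
    intro G
    obtain ⟨x, hx, hxD⟩ := hD.inter_open_nonempty G.1 (h2 G.1 G.2).1 (h2 G.1 G.2).2
    exact ⟨x, hxD, hx⟩
  choose f hf hfG using h4
  have : Countable 𝒢 := h1.to_subtype
  refine ⟨range f, by rintro _ ⟨G, rfl⟩; exact hf G, countable_range f, ?_⟩
  rw [dense_iff_inter_open]
  intro U hU hne
  obtain ⟨G, hG, hGU⟩ := h3 U hU hne
  exact ⟨f ⟨G, hG⟩, hGU (hfG ⟨G, hG⟩), ⟨G, hG⟩, rfl⟩

theorem ccc_of_separable {X : Type u} [TopologicalSpace X] (h : TopologicalSpace.SeparableSpace X) :
    CCC X := by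
  intro 𝒰 h1 h2
  exact h2.countable_of_isOpen (fun U hU => (h1 U hU).1) (fun U hU => (h1 U hU).2)

theorem almost_of_locallyCompact (X : Type u) [TopologicalSpace X] [T2Space X]
    [LocallyCompactSpace X] (ht : CountablyTight X) : AlmostLocallyTight X := by
  intro U hU hne
  obtain ⟨x, hx⟩ := hne
  obtain ⟨K, hK, hKU, hKc⟩ := local_compact_nhds (hU.mem_nhds hx)
  refine ⟨interior K, interior_subset.trans hKU, isOpen_interior,
    ⟨x, mem_interior_iff_mem_nhds.2 hK⟩, ?_, countablyTight_subtype ht _⟩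
  exact hKc.of_isClosed_subset isClosed_closure (closure_minimal interior_subset hKc.isClosed)

/-- **Full answer to Q1, in a stronger form.** Assume (TAM); no hypothesis on cardinal arithmetic.
(1) Let `X` be a Hausdorff space in which every nonempty open set contains a nonempty open set with
compact countably tight closure. Then the following are equivalent: `X` satisfies the countable
chain condition; `X` has a countable pi-base; every dense subset of `X` has a countable subset
which is dense in `X`; `X` is separable.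
(2) This applies to all countably tight locally compact Hausdorff spaces, in particular
(3) every countably tight compact Hausdorff space with the countable chain condition is separable
and has a countable pi-base. -/
theorem result (hT : TAM.{u}) :
    (∀ (X : Type u) [TopologicalSpace X] [T2Space X], AlmostLocallyTight X →
      List.TFAE [CCC X, HasCountablePiBase X,
        ∀ D : Set X, Dense D → ∃ C ⊆ D, C.Countable ∧ Dense C,
        TopologicalSpace.SeparableSpace X]) ∧
    (∀ (X : Type u) [TopologicalSpace X] [T2Space X] [LocallyCompactSpace X],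
      CountablyTight X → AlmostLocallyTight X) ∧
    (∀ (X : Type u) [TopologicalSpace X] [CompactSpace X] [T2Space X],
      CCC X → CountablyTight X → TopologicalSpace.SeparableSpace X ∧ HasCountablePiBase X) := by
  refine ⟨?_, ?_, ?_⟩
  · intro X _ _ hX
    tfae_have 1 → 2 := piBase hT X hX
    tfae_have 2 → 3 := fun h D hD => dense_of_piBase h D hD
    tfae_have 3 → 4 := by
      intro h
      obtain ⟨C, -, hC, hCd⟩ := h univ dense_univ
      exact ⟨C, hC, hCd⟩
    tfae_have 4 → 1 := ccc_of_separable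
    tfae_finish
  · intro X _ _ _ ht
    exact almost_of_locallyCompact X ht
  · intro X _ _ _ hc ht
    exact ⟨separable_of_TAM hT hc ht, piBase_compact hT X hc ht⟩

end Pool.Agent.Results.MP_41affd_gt.CountablePiBase
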